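import Pool.Agent.L7lead.LA.Stm

/-!
# Project LA, parts LPD and IBP: the Laplacian through line derivatives, Green's identity
-/

set_option autoImplicit false

open MeasureTheory

namespace Pool.Agent.L7h56.LA

open Pool.Agent.L7lead.LA

theorem df_diff {f : E → ℝ} (hf : ContDiff ℝ 2 f) (e : E) :
    ContDiff ℝ 1 (fun y => fderiv ℝ f y e) :=
  (hf.fderiv_right (m := 1) (by norm_num)).clm_apply contDiff_const

theorem sec {f : E → ℝ} (hf : ContDiff ℝ 2 f) (e x : E) :
    iteratedFDeriv ℝ 2 f x (fun _ => e) = fderiv ℝ (fun y => fderiv ℝ f y e) x e := by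
  rw [iteratedFDeriv_two_apply]
  have h1 : DifferentiableAt ℝ (fderiv ℝ f) x :=
    ((hf.fderiv_right (m := 1) (by norm_num)).differentiable (by norm_num)) x
  rw [fderiv_clm_apply h1 (differentiableAt_const _)]
  simp

/-- **LPD** -/
theorem t_LPD : S_LPD := by
  intro f hf x
  unfold Lap
  refine Finset.sum_congr rfl fun j _ => ?_
  set e : E := EuclideanSpace.single j (1 : ℝ) with he
  rw [sec hf e x]
  have hline : ∀ t : ℝ, HasDerivAt (fun t : ℝ => x + t • e) e t := by
    intro t
    have h := ((hasDerivAt_id t).smul_const e).const_add x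
    simpa using h
  have h1 : deriv (fun t : ℝ => f (x + t • e)) = fun t => fderiv ℝ f (x + t • e) e := by
    funext t
    exact (((hf.differentiable (by norm_num)) _).hasFDerivAt.comp_hasDerivAt t (hline t)).deriv
  rw [h1]
  have h2 : HasDerivAt (fun t : ℝ => fderiv ℝ f (x + t • e) e)
      (fderiv ℝ (fun y => fderiv ℝ f y e) (x + (0 : ℝ) • e) e) 0 :=
    HasFDerivAt.comp_hasDerivAt (f := fun t : ℝ => x + t • e) (0 : ℝ)
      (((df_diff hf e).differentiable (by norm_num)) (x + (0 : ℝ) • e)).hasFDerivAt (hline 0)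
  rw [h2.deriv, zero_smul, add_zero]

/-- **IBP** -/
theorem t_IBP : S_IBP := by
  intro f hf hfc φ hφ hφc
  have hcont : ∀ {u : E → ℝ}, ContDiff ℝ 2 u → ∀ e : E, Continuous fun x => fderiv ℝ u x e :=
    fun hu e => (df_diff hu e).continuous
  have hcont2 : ∀ {u : E → ℝ}, ContDiff ℝ 2 u → ∀ e : E,
      Continuous fun x => fderiv ℝ (fun y => fderiv ℝ u y e) x e :=
    fun hu e => ((df_diff hu e).fderiv_right (m := 0) (by norm_num)).clm_apply
      contDiff_const |>.continuous
  have hparts : ∀ e : E, ∫ x, f x * fderiv ℝ (fun y => fderiv ℝ φ y e) x e =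
      ∫ x, fderiv ℝ (fun y => fderiv ℝ f y e) x e * φ x := by
    intro e
    have h1 : ∫ x, f x * fderiv ℝ (fun y => fderiv ℝ φ y e) x e =
        -∫ x, fderiv ℝ f x e * fderiv ℝ φ x e := by
      apply integral_mul_fderiv_eq_neg_fderiv_mul_of_integrable
      · exact ((hcont hf e).mul (hcont hφ e)).integrable_of_hasCompactSupport
          ((hfc.fderiv_apply ℝ e).mul_right)
      · exact (hf.continuous.mul (hcont2 hφ e)).integrable_of_hasCompactSupport (hfc.mul_right)
      · exact (hf.continuous.mul (hcont hφ e)).integrable_of_hasCompactSupport (hfc.mul_right)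
      · exact fun x _ => (hf.differentiable (by norm_num)) x
      · exact fun x _ => ((df_diff hφ e).differentiable (by norm_num)) x
    have h2 : ∫ x, fderiv ℝ f x e * fderiv ℝ φ x e =
        -∫ x, fderiv ℝ (fun y => fderiv ℝ f y e) x e * φ x := by
      apply integral_mul_fderiv_eq_neg_fderiv_mul_of_integrable
      · exact ((hcont2 hf e).mul hφ.continuous).integrable_of_hasCompactSupport (hφc.mul_left)
      · exact ((hcont hf e).mul (hcont hφ e)).integrable_of_hasCompactSupport
          ((hfc.fderiv_apply ℝ e).mul_right)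
      · exact ((hcont hf e).mul hφ.continuous).integrable_of_hasCompactSupport (hφc.mul_left)
      · exact fun x _ => ((df_diff hf e).differentiable (by norm_num)) x
      · exact fun x _ => (hφ.differentiable (by norm_num)) x
    rw [h1, h2, neg_neg]
  have e1 : ∀ x, f x * Lap φ x = ∑ i : Fin 3, f x * fderiv ℝ (fun y =>
      fderiv ℝ φ y (EuclideanSpace.single i (1 : ℝ))) x (EuclideanSpace.single i (1 : ℝ)) := by
    intro x
    unfold Lap
    rw [Finset.mul_sum]
    exact Finset.sum_congr rfl fun i _ => by rw [sec hφ]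
  have e2 : ∀ x, Lap f x * φ x = ∑ i : Fin 3, fderiv ℝ (fun y =>
      fderiv ℝ f y (EuclideanSpace.single i (1 : ℝ))) x (EuclideanSpace.single i (1 : ℝ)) * φ x := by
    intro x
    unfold Lap
    rw [Finset.sum_mul]
    exact Finset.sum_congr rfl fun i _ => by rw [sec hf]
  simp only [e1, e2]
  rw [integral_finsetSum _ fun i _ => ?_, integral_finsetSum _ fun i _ => ?_]
  · exact Finset.sum_congr rfl fun i _ => hparts _
  · exact ((hcont2 hf _).mul hφ.continuous).integrable_of_hasCompactSupport (hφc.mul_left)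
  · exact (hf.continuous.mul (hcont2 hφ _)).integrable_of_hasCompactSupport (hfc.mul_right)

end Pool.Agent.L7h56.LA
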