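import Pool.Agent.L7lead.LA.Stm

/-!
# Project LA, part NT2: thin sets against an integrable kernel
-/

set_option autoImplicit false

open MeasureTheory Filter Topology
open scoped ENNReal

namespace Pool.Agent.L7h56.LA

open Pool.Agent.L7lead.LA

/-- **NT2** -/
theorem t_NT2 : S_NT2 := by
  intro K hK0 hK η hη
  have hη2 : (0 : ℝ) < η / 2 := by linarith
  set k : E → ℝ≥0∞ := fun z => ENNReal.ofReal (K z) with hk
  have hkfin : ∫⁻ z, k z ≠ ∞ := hK.lintegral_lt_top.ne
  obtain ⟨δ, hδ, habs⟩ := exists_pos_setLIntegral_lt_of_measure_lt hkfin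
    (ε := ENNReal.ofReal (η / 2)) (by simpa using hη2)
  -- the tail
  obtain ⟨A, hA0, hA⟩ : ∃ A : ℝ, 0 < A ∧
      ∫⁻ z in (Metric.ball (0 : E) A)ᶜ, k z ≤ ENNReal.ofReal (η / 2) := by
    have hmono : Antitone fun n : ℕ => (Metric.ball (0 : E) n)ᶜ := by
      intro m n hmn
      exact Set.compl_subset_compl.2 (Metric.ball_subset_ball (by exact_mod_cast hmn))
    have hfin : IsFiniteMeasure ((volume : Measure E).withDensity k) :=
      isFiniteMeasure_withDensity hkfin
    have h1 := tendsto_measure_iInter_atTop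
      (μ := (volume : Measure E).withDensity k) (s := fun n : ℕ => (Metric.ball (0 : E) n)ᶜ)
      (fun n => (Metric.isOpen_ball.measurableSet.compl).nullMeasurableSet) hmono
      ⟨0, measure_ne_top _ _⟩
    have h2 : ⋂ n : ℕ, (Metric.ball (0 : E) n)ᶜ = ∅ := by
      rw [← Set.compl_iUnion, Metric.iUnion_ball_nat, Set.compl_univ]
    rw [h2, measure_empty] at h1
    have h3 : ∀ᶠ n : ℕ in atTop, (volume : Measure E).withDensity k (Metric.ball (0 : E) n)ᶜ <
        ENNReal.ofReal (η / 2) :=
      h1.eventually_lt_const (by simpa using hη2)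
    obtain ⟨n, hn, hn1⟩ := (h3.and (eventually_ge_atTop 1)).exists
    refine ⟨n, by exact_mod_cast hn1, ?_⟩
    rw [withDensity_apply _ Metric.isOpen_ball.measurableSet.compl] at hn
    exact hn.le
  -- the measure
  obtain ⟨μ, hμ0, hμ⟩ : ∃ μ : ℝ, 0 < μ ∧ ENNReal.ofReal μ < δ := by
    obtain ⟨q, hq1, hq2⟩ := ENNReal.lt_iff_exists_real_btwn.1 hδ
    exact ⟨q, by simpa using hq2.1, hq2.2⟩
  refine ⟨A, μ, hA0, hμ0, fun N hN hthin x => ?_⟩
  -- change of variables
  set N' : Set E := {z | x - z ∈ N} with hN'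
  have hN'm : MeasurableSet N' := (measurable_const.sub measurable_id) hN
  have h1 : ∫ y in N, K (x - y) = ∫ z in N', K z := by
    rw [← integral_indicator hN, ← integral_indicator hN'm,
      ← integral_sub_left_eq_self (fun z => N'.indicator K z) volume x]
    congr 1
    funext y
    by_cases hy : y ∈ N
    · rw [Set.indicator_of_mem hy, Set.indicator_of_mem (show x - y ∈ N' by
        show x - (x - y) ∈ N
        rwa [sub_sub_cancel])]
    · rw [Set.indicator_of_notMem hy, Set.indicator_of_notMem (show x - y ∉ N' by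
        show ¬ (x - (x - y) ∈ N)
        rwa [sub_sub_cancel])]
  rw [h1]
  have h2 : ∫⁻ z in N', k z ≤ ENNReal.ofReal η := by
    have h3 : volume (N' ∩ Metric.ball 0 A) ≤ ENNReal.ofReal μ := by
      have h4 : N' ∩ Metric.ball 0 A =
          (fun z => x - z) ⁻¹' {y : E | y ∈ Metric.ball x A ∧ y ∈ N} := by
        ext z
        simp only [Set.mem_inter_iff, Set.mem_preimage, Metric.mem_ball]
        constructor
        · rintro ⟨h5, h6⟩
          refine ⟨?_, h5⟩
          rw [dist_eq_norm] at h6 ⊢
          rw [show x - z - x = -z by abel, norm_neg]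
          simpa using h6
        · rintro ⟨h5, h6⟩
          refine ⟨h6, ?_⟩
          rw [dist_eq_norm] at h5 ⊢
          rw [show x - z - x = -z by abel, norm_neg] at h5
          simpa using h5
      rw [h4, (Measure.measurePreserving_sub_left volume x).measure_preimage
        (show NullMeasurableSet {y : E | y ∈ Metric.ball x A ∧ y ∈ N} volume from
          (Metric.isOpen_ball.measurableSet.inter hN).nullMeasurableSet)]
      exact hthin x
    have h4 := habs _ (h3.trans_lt hμ)
    calc ∫⁻ z in N', k z ≤ ∫⁻ z in ((N' ∩ Metric.ball 0 A) ∪ (Metric.ball (0 : E) A)ᶜ), k z := by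
          apply lintegral_mono_set
          intro z hz
          by_cases hzA : z ∈ Metric.ball (0 : E) A
          · exact Or.inl ⟨hz, hzA⟩
          · exact Or.inr hzA
      _ ≤ (∫⁻ z in N' ∩ Metric.ball 0 A, k z) + ∫⁻ z in (Metric.ball (0 : E) A)ᶜ, k z :=
          lintegral_union_le _ _ _
      _ ≤ ENNReal.ofReal (η / 2) + ENNReal.ofReal (η / 2) := add_le_add h4.le hA
      _ = ENNReal.ofReal η := by
          rw [← ENNReal.ofReal_add hη2.le hη2.le, add_halves]
  rw [integral_eq_lintegral_of_nonneg_ae (Eventually.of_forall hK0)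
    hK.aestronglyMeasurable.restrict]
  exact ENNReal.toReal_le_of_le_ofReal hη.le h2

end Pool.Agent.L7h56.LA
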