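import Pool.Agent.L7lead.LA.Stm

/-!
# Project LA, part SUM: locally finite sums of cells
-/

set_option autoImplicit false

open MeasureTheory

namespace Pool.Agent.L7h56.LA

open Pool.Agent.L7lead.LA

/-- the indices active at `x` -/
noncomputable def box (L : ℝ) (x : E) : Finset (Fin 3 → ℤ) :=
  Fintype.piFinset fun j => {⌊x j / L⌋, ⌊x j / L⌋ + 1}

theorem card_box (L : ℝ) (x : E) : (box L x).card ≤ 8 := by
  unfold box
  rw [Fintype.card_piFinset]
  calc ∏ j : Fin 3, (({⌊x j / L⌋, ⌊x j / L⌋ + 1} : Finset ℤ)).card ≤ ∏ _j : Fin 3, 2 :=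
        Finset.prod_le_prod' fun j _ => Finset.card_le_two
    _ = 8 := by simp

theorem not_box {L : ℝ} {x : E} {i : Fin 3 → ℤ} (hi : i ∉ box L x) :
    ∃ j, 1 ≤ |x j / L - i j| := by
  unfold box at hi
  rw [Fintype.mem_piFinset] at hi
  push Not at hi
  obtain ⟨j, hj⟩ := hi
  refine ⟨j, ?_⟩
  rw [Finset.mem_insert, Finset.mem_singleton, not_or] at hj
  obtain ⟨h1, h2⟩ := hj
  have h3 := Int.floor_le (x j / L)
  have h4 := Int.lt_floor_add_one (x j / L)
  rcases lt_or_gt_of_ne h1 with h5 | h5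
  · have h6 : (i j : ℝ) ≤ ⌊x j / L⌋ - 1 := by
      have : i j ≤ ⌊x j / L⌋ - 1 := by omega
      exact_mod_cast this
    rw [le_abs]
    left
    linarith
  · have h6 : (⌊x j / L⌋ : ℝ) + 2 ≤ i j := by
      have : ⌊x j / L⌋ + 2 ≤ i j := by omega
      exact_mod_cast this
    rw [le_abs]
    right
    linarith

/-- the indices active in a ball -/
noncomputable def bigbox (M : ℕ) : Finset (Fin 3 → ℤ) :=
  Fintype.piFinset fun _ => Finset.Icc (-(M : ℤ) - 1) (M + 1)

theorem not_bigbox {L : ℝ} (hL : 0 < L) {M : ℕ} {x : E} (hx : ‖x‖ ≤ L * M) {i : Fin 3 → ℤ}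
    (hi : i ∉ bigbox M) : ∃ j, 1 ≤ |x j / L - i j| := by
  unfold bigbox at hi
  rw [Fintype.mem_piFinset] at hi
  push Not at hi
  obtain ⟨j, hj⟩ := hi
  refine ⟨j, ?_⟩
  have h1 : |x j / L| ≤ M := by
    have h2 : ‖x j‖ ≤ ‖x‖ := PiLp.norm_apply_le x j
    rw [abs_div, abs_of_pos hL, div_le_iff₀ hL, ← Real.norm_eq_abs]
    linarith
  rw [abs_le] at h1
  rw [Finset.mem_Icc, not_and_or, not_le, not_le] at hj
  rcases hj with h5 | h5
  · have h6 : (i j : ℝ) ≤ -M - 2 := by
      have : i j ≤ -(M : ℤ) - 2 := by omega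
      exact_mod_cast this
    rw [le_abs]
    left
    linarith
  · have h6 : (M : ℝ) + 2 ≤ i j := by
      have : (M : ℤ) + 2 ≤ i j := by omega
      exact_mod_cast this
    rw [le_abs]
    right
    linarith

/-- the sum of a locally finite family -/
noncomputable def US (c : (Fin 3 → ℤ) → E → ℝ) (x : E) : ℝ := ∑ᶠ i, c i x

section fam

variable {L : ℝ} {c : (Fin 3 → ℤ) → E → ℝ}

theorem US_eq (hz : ∀ i x, (∃ j, 1 ≤ |x j / L - i j|) → c i x = 0) (x : E)
    (T : Finset (Fin 3 → ℤ)) (hT : ∀ i, i ∉ T → ∃ j, 1 ≤ |x j / L - i j|) :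
    US c x = ∑ i ∈ T, c i x := by
  unfold US
  apply finsum_eq_sum_of_support_subset
  intro i hi
  by_contra hne
  exact hi (hz i x (hT i hne))

theorem US_cont (hL : 0 < L) (hc : ∀ i, Continuous (c i))
    (hz : ∀ i x, (∃ j, 1 ≤ |x j / L - i j|) → c i x = 0) : Continuous (US c) := by
  rw [continuous_iff_continuousAt]
  intro x₀
  obtain ⟨M, hM⟩ := exists_nat_gt (‖x₀‖ / L)
  rw [div_lt_iff₀ hL] at hM
  have h1 : ContinuousAt (fun x => ∑ i ∈ bigbox M, c i x) x₀ :=
    (continuous_finsetSum _ fun i _ => hc i).continuousAt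
  refine h1.congr ?_
  have h2 : {x : E | ‖x‖ < L * M} ∈ nhds x₀ :=
    (isOpen_lt continuous_norm continuous_const).mem_nhds (show ‖x₀‖ < L * M by linarith)
  filter_upwards [h2] with x hx
  have hx' : ‖x‖ < L * M := hx
  exact (US_eq hz x _ fun i hi => not_bigbox hL hx'.le hi).symm

end fam

theorem lap_zero {φ : E → ℝ} {x : E} (hx : x ∉ tsupport φ) : Lap φ x = 0 := by
  unfold Lap
  refine Finset.sum_eq_zero fun i _ => ?_
  have h1 : iteratedFDeriv ℝ 2 φ x = 0 := by
    by_contra hne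
    exact hx (tsupport_iteratedFDeriv_subset (𝕜 := ℝ) 2 (subset_closure hne))
  rw [h1]
  rfl

theorem lap_cont {φ : E → ℝ} (hφ : ContDiff ℝ 2 φ) : Continuous (Lap φ) := by
  unfold Lap
  refine continuous_finsetSum _ fun i _ => ?_
  have h1 := hφ.continuous_iteratedFDeriv (m := 2) le_rfl
  exact (ContinuousMultilinearMap.apply ℝ (fun _ : Fin 2 => E) ℝ
    (fun _ => EuclideanSpace.single i (1 : ℝ))).continuous.comp h1

/-- **SUM** -/
theorem t_SUM : S_SUM := by
  intro L hL c g hc hg hz hw W hW ε hε hcg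
  have hzc : ∀ i x, (∃ j, 1 ≤ |x j / L - i j|) → c i x = 0 := fun i x h => (hz i x h).1
  have hzg : ∀ i x, (∃ j, 1 ≤ |x j / L - i j|) → g i x = 0 := fun i x h => (hz i x h).2
  refine ⟨US c, US g, US_cont hL hc hzc, US_cont hL hg hzg, ?_, ?_, ?_, ?_⟩
  · intro φ hφ hφc
    obtain ⟨r, hr⟩ := hφc.isCompact.isBounded.subset_closedBall (0 : E)
    obtain ⟨M, hM⟩ := exists_nat_gt (r / L)
    rw [div_lt_iff₀ hL] at hM
    have hin : ∀ x, x ∈ tsupport φ → ‖x‖ ≤ L * M := by
      intro x hx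
      have := hr hx
      rw [mem_closedBall_zero_iff] at this
      linarith
    have e1 : ∀ x, US c x * Lap φ x = ∑ i ∈ bigbox M, c i x * Lap φ x := by
      intro x
      by_cases hx : x ∈ tsupport φ
      · rw [US_eq hzc x (bigbox M) fun i hi => not_bigbox hL (hin x hx) hi, Finset.sum_mul]
      · rw [lap_zero hx, mul_zero]
        simp
    have e2 : ∀ x, US g x * φ x = ∑ i ∈ bigbox M, g i x * φ x := by
      intro x
      by_cases hx : x ∈ tsupport φ
      · rw [US_eq hzg x (bigbox M) fun i hi => not_bigbox hL (hin x hx) hi, Finset.sum_mul]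
      · rw [image_eq_zero_of_notMem_tsupport hx, mul_zero]
        simp
    simp only [e1, e2]
    rw [integral_finsetSum _ fun i _ => ?_, integral_finsetSum _ fun i _ => ?_]
    · exact Finset.sum_congr rfl fun i _ => hw i φ hφ hφc
    · exact ((hg i).mul hφ.continuous).integrable_of_hasCompactSupport (hφc.mul_left)
    · have hLs : HasCompactSupport (Lap φ) :=
        HasCompactSupport.of_support_subset_isCompact hφc.isCompact fun x hx => by
          by_contra hne
          exact hx (lap_zero hne)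
      exact ((hc i).mul (lap_cont hφ)).integrable_of_hasCompactSupport (hLs.mul_left)
  · exact fun x T hT => US_eq hzc x T hT
  · intro b hb x
    rw [US_eq hzc x (box L x) fun i hi => not_box hi]
    have hb0 : 0 ≤ b x := (abs_nonneg _).trans (hb 0 x)
    calc |∑ i ∈ box L x, c i x| ≤ ∑ i ∈ box L x, |c i x| := Finset.abs_sum_le_sum_abs _ _
      _ ≤ ∑ _i ∈ box L x, b x := Finset.sum_le_sum fun i _ => hb i x
      _ = (box L x).card * b x := by rw [Finset.sum_const, nsmul_eq_mul]
      _ ≤ 8 * b x := by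
        apply mul_le_mul_of_nonneg_right _ hb0
        exact_mod_cast card_box L x
  · intro x
    rw [US_eq hzc x (box L x) fun i hi => not_box hi, US_eq hzg x (box L x) fun i hi => not_box hi,
      ← Finset.sum_add_distrib]
    have hb0 : 0 ≤ ε * W x := mul_nonneg hε (hW x)
    calc |∑ i ∈ box L x, (g i x + c i x)| ≤ ∑ i ∈ box L x, |g i x + c i x| :=
          Finset.abs_sum_le_sum_abs _ _
      _ ≤ ∑ _i ∈ box L x, ε * W x := Finset.sum_le_sum fun i _ => hcg i x
      _ = (box L x).card * (ε * W x) := by rw [Finset.sum_const, nsmul_eq_mul]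
      _ ≤ 8 * (ε * W x) := by
        apply mul_le_mul_of_nonneg_right _ hb0
        exact_mod_cast card_box L x
      _ = 8 * ε * W x := by ring

end Pool.Agent.L7h56.LA
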